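import Mathlib
import Pool.Agent.V11191.ML.Main

/-!
# Complete monotonicity of a Mittag-Leffler square sum

For `0 < α ≤ 1/2` the function `t ↦ |E_{2α,1}(-t)|² + t |E_{2α,1+α}(-t)|²` is completely monotone on
`(0, ∞)`.

Idea.  With `β = 2α` let `V` have the moments `Γ(1+s)/Γ(1+βs)` (approximated by the compactly supported
laws with moments `n^{(1-β)s} ∏_{k ≤ n} (1+βs/k)/(1+s/k)`).  Then `E_{β,1}(-t) = E exp(-tV)` and
`√t E_{β,1+β/2}(-t) = E G(tV)` with `G(u) = e^{-u} erfi(√u)`, so the function is the double integral of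
the kernel `e^{-t(x+y)} + G(tx) G(ty)`, and this kernel equals
`(2/π) √(xy) ∫₀¹ [e^{-ty(1-v²)}/(x+yv²) + e^{-tx(1-v²)}/(y+xv²)] dv`, a positive mixture of decreasing
exponentials of `t`.
-/

open Set
open scoped ContDiff

namespace Pool.Agent.Results.MP_38d52f_an.CompletelyMonotone

open Pool.Agent.V11191.ML

/-- the two-parameter Mittag-Leffler function `E_{a,b}(z) = ∑ z^k / Γ(a k + b)` -/
noncomputable def E (a b : ℝ) (z : ℂ) : ℂ :=
  ∑' k : ℕ, z ^ k / Complex.Gamma ((a * k + b : ℝ) : ℂ)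

/-- `f_α(t) = |E_{2α,1}(-t)|² + t |E_{2α,1+α}(-t)|²` -/
noncomputable def f (α t : ℝ) : ℝ :=
  ‖E (2 * α) 1 (-(t : ℂ))‖ ^ 2 + t * ‖E (2 * α) (1 + α) (-(t : ℂ))‖ ^ 2

/-- complete monotonicity on `(0, ∞)`: smooth there, and `(-1)^n g^{(n)}(t) ≥ 0` for all `n` and
all `t > 0` -/
def CompletelyMonotoneOnPos (g : ℝ → ℝ) : Prop :=
  ContDiffOn ℝ ∞ g (Ioi 0) ∧ ∀ n : ℕ, ∀ t : ℝ, 0 < t → 0 ≤ (-1) ^ n * iteratedDeriv n g t

lemma E_real (a b t : ℝ) : E a b (-(t : ℂ)) = ((MLf a b (-t) : ℝ) : ℂ) := by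
  unfold E MLf
  rw [Complex.ofReal_tsum]
  congr 1
  funext k
  rw [Complex.Gamma_ofReal]
  push_cast
  rfl

lemma f_eq (α : ℝ) : f α = fun t => MLf (2 * α) 1 (-t) ^ 2 +
    t * MLf (2 * α) (1 + 2 * α / 2) (-t) ^ 2 := by
  funext t
  unfold f
  rw [E_real, E_real, Complex.norm_real, Complex.norm_real, Real.norm_eq_abs, Real.norm_eq_abs,
    sq_abs, sq_abs, show 1 + 2 * α / 2 = 1 + α by ring]

/-- **Main theorem** (full answer to Q1, and hence to Q2): for every `0 < α ≤ 1/2` the function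
`f_α` is completely monotone on `(0, ∞)`. -/
theorem result (α : ℝ) (h0 : 0 < α) (h1 : α ≤ 1 / 2) : CompletelyMonotoneOnPos (f α) := by
  have hb0 : 0 < 2 * α := by linarith
  have hb1 : 2 * α ≤ 1 := by linarith
  have hsm : ContDiff ℝ ∞ (f α) := by
    rw [f_eq]
    have c1 : ContDiff ℝ ∞ fun t : ℝ => MLf (2 * α) 1 (-t) :=
      (MLf_contDiff hb0 hb1 one_pos).comp contDiff_neg
    have c2 : ContDiff ℝ ∞ fun t : ℝ => MLf (2 * α) (1 + 2 * α / 2) (-t) :=
      (MLf_contDiff hb0 hb1 (by linarith)).comp contDiff_neg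
    exact (c1.pow 2).add (contDiff_id.mul (c2.pow 2))
  have hC : InC (f α) := by
    rw [f_eq]
    exact main hb0 hb1
  refine ⟨hsm.contDiffOn, fun n t ht => ?_⟩
  have h := inC_iteratedDeriv hC hsm n [] (by simp) t ht
  simpa [dif] using h

end Pool.Agent.Results.MP_38d52f_an.CompletelyMonotone
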